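import Pool.Agent.Lib.H8.Low
import Pool.Agent.Lib.H8.GS

/-!
An infinite recursively presented group whose subshifts miss an effectively closed Medvedev degree.
-/

namespace Pool.Agent.Results.MP_474f70_lc.No

open Pool.Agent.Lib.H8 Arith CList Wei Qm Kc Om Gen GS Low Classical

/-- The finite symmetric family `s` generates `G`, with a c.e. set of words as relators. -/
def RP {G : Type} [Group G] {d : ℕ} (s : Fin d → G) : Prop :=
  (∀ i, ∃ j, s j = (s i)⁻¹) ∧ Subgroup.closure (Set.range s) = ⊤ ∧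
    ∃ R : List (Fin d) → Prop, REPred R ∧ (FreeGroup.lift s).ker =
      Subgroup.normalClosure ((fun w => (w.map FreeGroup.of).prod) '' {w | R w})

/-- A computable enumeration of all words. -/
def wd (d n : ℕ) : List (Fin d) := (Encodable.decode n).getD []

/-- Configurations read along the enumeration of words. -/
def hat {G : Type} [Group G] {d a : ℕ} (s : Fin d → G) (X : Set (G → Fin a)) : Set (ℕ → ℕ) :=
  {p | ∃ x ∈ X, p = fun n => (x ((wd d n).map s).prod : ℕ)}

/-- Medvedev reducibility. -/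
def Med (P Q : Set (ℕ → ℕ)) : Prop := ∃ e, ∀ q ∈ Q, ∃ p ∈ P, Out e q p

/-- Effectively closed subsets of Cantor space. -/
def Pi01 (P : Set (ℕ → ℕ)) : Prop :=
  ∃ U : List ℕ → Prop, REPred U ∧ P = {p | (∀ n, p n ≤ 1) ∧ ∀ k, ¬ U (pre p k)}

lemma wd_c : Computable (wd 8) :=
  (Primrec.option_getD.comp Primrec.decode (Primrec.const [])).to_comp

lemma sub_c : Computable (List.sublists' : Wd → List Wd) :=
  ((Primrec.list_foldr Primrec.id (Primrec.const [[]]) (Primrec.list_append.comp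
    (Primrec.snd.comp Primrec.snd) (Primrec.list_map (Primrec.snd.comp Primrec.snd)
      (Primrec.list_cons.comp (Primrec.fst.comp (Primrec.snd.comp Primrec.fst))
        Primrec.snd).to₂)).to₂).of_eq fun l => by induction l <;> simp_all).to_comp

lemma cg_c {α : Type} [Primcodable α] {n : α → ℕ} {u v : α → Wd} (hn : Computable n)
    (hu : Computable u) (hv : Computable v) : ComputablePred fun a => Cg (n a) (u a) (v a) := by
  have l := Primrec.list_append.to_comp.comp (sub_c.comp hu) (sub_c.comp hv)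
  have c : Computable fun q : α × Wd => ct ((u q.1).sublists' ++ (v q.1).sublists') q.2 :=
    Computable.list_length.comp (cfilter (l.comp Computable.fst)
      (ceq Computable.snd (Computable.snd.comp Computable.fst)))
  exact call l (cimp (clt (Computable.list_length.comp Computable.snd) (hn.comp Computable.fst))
    (ceq (md c 2) (Computable.const 0)))

lemma rel {H : Type} [Group H] {g : Fin 8 → H} (h : ∀ i, g i * g i = 1) (u v : Wd) :
    ((u ++ v.reverse).map g).prod = 1 ↔ (u.map g).prod = (v.map g).prod := by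
  rw [← mul_inv_eq_one (b := (v.map g).prod), List.prod_inv_reverse, List.map_map, List.map_append, List.prod_append,
    List.map_reverse, show (fun x => x⁻¹) ∘ g = g from funext fun i => inv_eq_of_mul_eq_one_left (h i)]

lemma fin {x : Wd → ℕ} {n : ℕ} (h : ∀ u v, Cg n u v → x u = x v) : Computable fun k => x (wd 8 k) := by
  obtain ⟨R, r⟩ := reps n
  have f := @Computable.fst
  have s := @Computable.snd
  have a : ComputablePred fun q : (ℕ × ℕ) × Wd × ℕ => ¬ (Cg n (wd 8 q.1.1) q.2.1 ∧ q.1.2 = q.2.2) :=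
    (cand (cg_c (Computable.const n) (wd_c.comp (f.comp f)) (f.comp s))
      (ceq (s.comp f) (s.comp s))).not
  obtain ⟨c, c1, c2⟩ := csel (P := fun (k y : ℕ) => ¬ ∀ z ∈ R.map fun r => (r, x r),
    ¬ (Cg n (wd 8 k) z.1 ∧ y = z.2)) (call (Computable.const _) a).not fun k =>
      (r (wd 8 k)).elim fun v b => ⟨x v, fun c => c _ (List.mem_map_of_mem b.1) ⟨b.2, rfl⟩⟩
  refine c1.of_eq fun k => by_contra fun n => c2 k fun z b c => ?_
  obtain ⟨v, -, rfl⟩ := List.mem_map.1 b
  exact n (c.2.trans (h _ _ c.1).symm)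

lemma out_sig {x p : ℕ → ℕ} {e : ℕ} (h : Computable x) (o : Out e x p) :
    Sig 1 ℕ fun z => z.unpair.2 = p z.unpair.1 := by
  have a : Computable fun q : ℕ × ℕ => pre x q.2 :=
    cpre Computable.snd (h.comp Computable.snd).to₂
  have b := Sig.ex (CeAlg.w_sig (Computable.const e) (Computable.encode.comp (a.pair
    ((u1.comp Computable.fst).pair (u2.comp Computable.fst)))))
  exact b.of_eq fun z => o z.unpair.1 z.unpair.2

theorem result : ∃ (G : Type) (_ : Group G) (d : ℕ) (s : Fin d → G), Infinite G ∧ RP s ∧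
    ∃ P, Pi01 P ∧ P.Nonempty ∧
      ∀ (a : ℕ) (X : Set (G → Fin a)), ¬ (Med P (hat s X) ∧ Med (hat s X) P) := by
  have f := @Computable.fst
  have s := @Computable.snd
  have j : Computable fun q : ((ℕ × ℕ) × ℕ) × ℕ => q.1.1.1 := f.comp (f.comp f)
  have c : Computable fun q : ((ℕ × ℕ) × ℕ) × ℕ => q.1.1.2 := s.comp (f.comp f)
  obtain ⟨E, e1, -, e2⟩ := ((Op.cp (ceq (s.comp f) s).not).and ((Op.univ j (u1.comp c)
    (s.comp f)).and (Op.univ j (u2.comp c) s))).exd.exd
  obtain ⟨B, b1, b2⟩ := sig_nf e1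
  have t : Computable fun q : ℕ × List ℕ × ℕ => q.2.2 := s.comp s
  obtain ⟨U, a, T, hU, hT, a1, a2, a3, t1, t2, t3⟩ := low (cand (cg_c (ad (ml f f)
    (ad (ml (Computable.const 2) f) (Computable.const 2))) (wd_c.comp (u1.comp (u1.comp t)))
      (wd_c.comp (u2.comp (u1.comp t)))) (cp b1 (((Primrec.list_take.to_comp.comp
        (u1.comp (u2.comp t)) (f.comp s)).pair (f.pair (u1.comp t))).pair (u2.comp (u2.comp t)))))
  dsimp only at e2 t2 t3
  let R : Wd → Prop := fun w => w ∈ (List.finRange 8).map (fun i => [i, i]) ∨ ∃ z, T z ∧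
    w = wd 8 z.2.2.unpair.1.unpair.1 ++ (wd 8 z.2.2.unpair.1.unpair.2).reverse
  have z : Computable fun q : Wd × ℕ × ℕ × ℕ => q.2.2.2.unpair.1 := u1.comp (s.comp (s.comp s))
  have hR : Sig 1 _ R := (CeAlg.cs (cmem (Computable.const _) Computable.id)).or (Sig.exd
    ((hT.comp s).and (CeAlg.cs (ceq f (Primrec.list_append.to_comp.comp (wd_c.comp (u1.comp z))
      (Primrec.list_reverse.to_comp.comp (wd_c.comp (u2.comp z))))))))
  have : ∀ c : ℕ, ∃ u v, Cg (c + 2) u v ∧ ∀ t, T (c.unpair.1, c.unpair.2, t) →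
      u = wd 8 t.unpair.1.unpair.1 ∧ v = wd 8 t.unpair.1.unpair.2 := fun c => by
    by_cases h : ∃ t, T (c.unpair.1, c.unpair.2, t)
    · obtain ⟨t, h⟩ := h
      obtain ⟨k, _, l, -⟩ := t2 _ _ _ h
      refine ⟨_, _, l.mono ?_, fun u k => t1 _ _ _ _ h k ▸ ⟨rfl, rfl⟩⟩
      have := c.pair_unpair
      rw [Nat.pair, if_neg k.not_gt] at this
      omega
    · exact ⟨[], [], Cg.rfl _ _, fun t k => (h ⟨t, k⟩).elim⟩
  choose u v u1 u2 using this
  obtain ⟨Y, g, g1, g2, g3⟩ := grp u v u1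
  let r := (fun w : Wd => (w.map FreeGroup.of).prod) '' {w | R w}
  have l : ∀ {H : Type} [Group H] (g : Fin 8 → H) (w : Wd),
      FreeGroup.lift g (w.map FreeGroup.of).prod = (w.map g).prod := fun g w => by
    simp [map_list_prod, Function.comp_def]
  have m : FreeGroup.lift PresentedGroup.of = PresentedGroup.mk r := by ext; simp; rfl
  have rk : ∀ w, R w → (w.map (PresentedGroup.of (rels := r))).prod = 1 := fun w h => by
    rw [← l, m]
    exact PresentedGroup.one_of_mem ⟨w, h, rfl⟩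
  have i : ∀ i, PresentedGroup.of (rels := r) i * .of i = 1 := fun i => by
    simpa using rk [i, i] (Or.inl (by simp))
  have π : ∀ x ∈ r, FreeGroup.lift g x = 1 := by
    rintro _ ⟨w, h | ⟨z, h, rfl⟩, rfl⟩ <;> rw [l]
    · obtain ⟨i, -, rfl⟩ := List.mem_map.1 h
      simpa using g1 i
    · have := u2 (z.1.pair z.2.1) z.2.2 (by simpa using h)
      rw [rel g1, ← this.1, ← this.2, g2]
  refine ⟨PresentedGroup r, inferInstance, 8, .of, not_finite_iff_infinite.1 fun _ => g3
    ((Set.finite_range (PresentedGroup.toGroup π)).subset ?_),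
    ⟨fun j => ⟨j, eq_inv_of_mul_eq_one_left (i j)⟩, PresentedGroup.closure_range_of r, R, sig_re hR,
      m ▸ QuotientGroup.ker_mk' _⟩, _, ⟨U, sig_re hU, rfl⟩, ⟨a, a1, a2⟩, ?_⟩
  · rintro _ ⟨w, rfl⟩
    exact ⟨(w.map .of).prod, by simp [map_list_prod, Function.comp_def]⟩
  rintro n X ⟨⟨e, p⟩, j, q⟩
  obtain ⟨_, ⟨x, hx, rfl⟩, o⟩ := q a ⟨a1, a2⟩
  obtain ⟨p, p1, p2⟩ := p _ ⟨x, hx, rfl⟩
  have := fin (x := fun w => x (w.map .of).prod) (n := j * j + (2 * j + 2)) fun y w h =>
    by_contra fun d => by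
    obtain ⟨k, h1⟩ := (e2 a (j, (Encodable.encode y).pair (Encodable.encode w))).1
      ⟨_, _, d, by simpa [wd] using (o (Encodable.encode y) _).2 rfl,
        by simpa [wd] using (o (Encodable.encode w) _).2 rfl⟩
    obtain ⟨t, h2⟩ := (b2 _).1 h1
    have b : ∀ t : ℕ, (pre a t).take t.unpair.2.unpair.1 = pre a t.unpair.2.unpair.1 := fun t =>
      pre_take a (t.unpair.2.unpair_left_le.trans t.unpair_right_le)
    obtain ⟨k, t, h3, -, h4⟩ := t3 j (((Encodable.encode y).pair (Encodable.encode w)).pair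
      (k.pair t)) (by rw [b]; simpa [wd] using ⟨h, h2⟩)
    obtain ⟨y, w, d, h5, h6⟩ := (e2 a _).2 ⟨_, b t ▸ (b2 _).2 ⟨_, h4⟩⟩
    exact d (((o _ _).1 h5).trans ((congrArg (fun g => (x g : ℕ)) ((rel i _ _).1
      (rk _ (Or.inr ⟨_, h3, rfl⟩)))).trans ((o _ _).1 h6).symm))
  exact a3 p p1.2 (out_sig this p2)

end Pool.Agent.Results.MP_474f70_lc.No
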